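import Pool.Agent.Lib.H25T.Final
import Pool.Agent.Lib.H25T.Certs

/-!
# The constant `α(ℓ₂ⁿ)` for every `n`
-/

namespace Pool.Agent.Results.MP_afe93a_an.HilbertAll

open Pool.Agent.H39Alpha

universe v

/-- For every `n ≥ 1`, the constant `α(ℓ₂ⁿ)` is `(n+1)/2` if `n` is odd and `√(n(n+2))/2` if `n` is
even; in particular it is less than `n/√2` when `n ≥ 3`. -/
theorem result (n : ℕ) (hn : 1 ≤ n) :
    alpha.{v} (EuclideanSpace ℂ (Fin n)) =
      ENNReal.ofReal (if Odd n then ((n : ℝ) + 1) / 2 else Real.sqrt (n * (n + 2)) / 2) ∧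
    (3 ≤ n → alpha.{v} (EuclideanSpace ℂ (Fin n)) < ENNReal.ofReal ((n : ℝ) / Real.sqrt 2)) :=
  ⟨Pool.Agent.H25T.alpha_all Pool.Agent.H25T.t1_all n hn, Pool.Agent.H25T.alpha_lt n⟩

end Pool.Agent.Results.MP_afe93a_an.HilbertAll
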