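import Pool.Agent.Lib.H39T.BoundZ

/-!
# The constant `α(ℓ_∞ⁿ)`

For every `n ≥ 2`, `n/2 ≤ α(ℓ_∞ⁿ)² ≤ n/(1 + (n-1)/√(n²-n-1)) < n/2 + 1/8`.
-/

namespace Pool.Agent.Results.MP_afe93a_an.SupNormCase

open Pool.Agent.H39Alpha

universe v

/-- For every `n ≥ 2`, `√(n/2) ≤ α(ℓ_∞ⁿ) ≤ √(n/(1 + (n-1)/√(n²-n-1)))`, and the number under
the last outer root is smaller than `n/2 + 1/8`. -/
theorem result (n : ℕ) (hn : 2 ≤ n) :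
    ENNReal.ofReal (Real.sqrt ((n : ℝ) / 2)) ≤ alpha.{v} (Fin n → ℂ) ∧
    alpha.{v} (Fin n → ℂ) ≤ ENNReal.ofReal
      (Real.sqrt ((n : ℝ) / (1 + ((n : ℝ) - 1) / Real.sqrt ((n : ℝ) ^ 2 - n - 1)))) ∧
    (n : ℝ) / (1 + ((n : ℝ) - 1) / Real.sqrt ((n : ℝ) ^ 2 - n - 1)) < (n : ℝ) / 2 + 1 / 8 :=
  ⟨le_alpha_linf n (by omega), Pool.Agent.Lib.H39T.alpha_linf_le_cst n hn,
    Pool.Agent.Lib.H39T.cst_lt hn⟩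

end Pool.Agent.Results.MP_afe93a_an.SupNormCase
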