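import Pool.Agent.H39Alpha.Triple

/-!
# The expected value of `α(ℓ_∞³)` is not the true one

`α(ℓ_∞³) ≥ 3/√5.99 > √(3/2)`, so the equality `α(ℓ_∞ⁿ) = √(n/2)` fails for `n = 3`.
-/

namespace Pool.Agent.Results.MP_afe93a_an.SupNormThree

open Pool.Agent.H39Alpha

universe v

/-- `α(ℓ_∞³) ≥ 3/√5.99`, and in particular `α(ℓ_∞³) > √(3/2)`. -/
theorem result :
    ENNReal.ofReal (3 / Real.sqrt (599 / 100)) ≤ alpha.{v} (Fin 3 → ℂ) ∧
    ENNReal.ofReal (Real.sqrt (((3 : ℕ) : ℝ) / 2)) < alpha.{v} (Fin 3 → ℂ) := by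
  refine ⟨le_alpha_linf_three, lt_of_lt_of_le ?_ le_alpha_linf_three⟩
  have hpos : 0 < Real.sqrt (599 / 100) := Real.sqrt_pos.mpr (by norm_num)
  rw [ENNReal.ofReal_lt_ofReal_iff (by positivity), lt_div_iff₀ hpos,
    ← Real.sqrt_mul (by positivity), Real.sqrt_lt' (by norm_num)]
  norm_num

end Pool.Agent.Results.MP_afe93a_an.SupNormThree
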